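import Pool.Agent.W223.AC.Stms

set_option autoImplicit false

namespace Pool.Agent.W398.AC.DIM

theorem step {k A : Type} [Field k] [CommRing A] [IsDedekindDomain A] [Algebra k A] (I : Ideal A)
    (hI : I ≠ ⊥) (hfin : Module.Finite k (A ⧸ I)) (m : ℕ) (ih1 : Module.Finite k (A ⧸ I ^ m)) :
    Module.Finite k (A ⧸ I ^ (m + 1)) ∧ Module.finrank k (A ⧸ I ^ (m + 1)) ≤
      Module.finrank k (A ⧸ I ^ m) + Module.finrank k (A ⧸ I) := by
  have hle : I ^ (m + 1) ≤ I ^ m := Ideal.pow_le_pow_right (Nat.le_succ m)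
  obtain ⟨a, ha⟩ := IsDedekindDomain.exists_sup_span_eq hle (pow_ne_zero _ hI)
  have haI : a ∈ I ^ m := by
    rw [← ha]
    exact Ideal.mem_sup_right (Ideal.mem_span_singleton_self a)
  have h1 : I ≤ Submodule.comap (LinearMap.mulLeft A a) (I ^ (m + 1)) := by
    intro y hy
    rw [Submodule.mem_comap, LinearMap.mulLeft_apply, pow_succ]
    exact Ideal.mul_mem_mul haI hy
  let f : (A ⧸ I) →ₗ[k] (A ⧸ I ^ (m + 1)) :=
    (Submodule.mapQ I (I ^ (m + 1)) (LinearMap.mulLeft A a) h1).restrictScalars k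
  let g : (A ⧸ I ^ (m + 1)) →ₗ[k] (A ⧸ I ^ m) :=
    (Submodule.mapQ (I ^ (m + 1)) (I ^ m) (LinearMap.id : A →ₗ[A] A) hle).restrictScalars k
  have hker : LinearMap.ker g ≤ LinearMap.range f := by
    intro x hx
    obtain ⟨y, rfl⟩ := Submodule.Quotient.mk_surjective (I ^ (m + 1)) x
    have hy : Submodule.Quotient.mk (p := I ^ m) y = 0 := hx
    rw [Submodule.Quotient.mk_eq_zero, ← ha, Submodule.mem_sup] at hy
    obtain ⟨u, hu, v, hv, rfl⟩ := hy
    obtain ⟨z, rfl⟩ := Ideal.mem_span_singleton'.1 hv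
    refine ⟨Submodule.Quotient.mk z, ?_⟩
    change Submodule.Quotient.mk (a * z) = Submodule.Quotient.mk (u + z * a)
    rw [Submodule.Quotient.eq]
    have e : a * z - (u + z * a) = -u := by ring
    rw [e]
    exact neg_mem hu
  have : Module.Finite k (LinearMap.range f) := inferInstance
  have : Module.Finite k (LinearMap.ker g) := Submodule.finiteDimensional_of_le hker
  have h5 : Module.Finite k ((A ⧸ I ^ (m + 1)) ⧸ LinearMap.ker g) :=
    Module.Finite.equiv g.quotKerEquivRange.symm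
  have h6 : Module.Finite k (A ⧸ I ^ (m + 1)) :=
    Module.Finite.of_submodule_quotient (LinearMap.ker g)
  refine ⟨h6, ?_⟩
  have h7 := LinearMap.finrank_range_add_finrank_ker g
  have h8 : Module.finrank k (LinearMap.ker g) ≤ Module.finrank k (LinearMap.range f) :=
    Submodule.finrank_mono hker
  have h9 : Module.finrank k (LinearMap.range f) ≤ Module.finrank k (A ⧸ I) :=
    LinearMap.finrank_range_le f
  have h10 : Module.finrank k (LinearMap.range g) ≤ Module.finrank k (A ⧸ I ^ m) :=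
    Submodule.finrank_le _
  omega

theorem t : Pool.Agent.W223.AC.StmtDIM := by
  intro k A _ _ _ _ I hI hfin m
  induction m with
  | zero =>
    have : Subsingleton (A ⧸ I ^ 0) := by
      rw [pow_zero, Ideal.one_eq_top]
      exact Submodule.Quotient.subsingleton_iff.2 rfl
    refine ⟨inferInstance, ?_⟩
    rw [Module.finrank_zero_of_subsingleton]
    exact Nat.zero_le _
  | succ m ih =>
    obtain ⟨ih1, ih2⟩ := ih
    obtain ⟨h1, h2⟩ := step I hI hfin m ih1
    refine ⟨h1, h2.trans ?_⟩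
    have : (m + 1) * Module.finrank k (A ⧸ I) = m * Module.finrank k (A ⧸ I) +
      Module.finrank k (A ⧸ I) := by ring
    omega

end Pool.Agent.W398.AC.DIM
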